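import Pool.Agent.H.MP_58d537_lc.H52.Restr

/-!
# Polynomial bit fixing for algorithms aware of what they already know about the queried bit

The model is the one of the frozen statement of the problem (phase oracle on
`Option (Fin N) × Fin m`, where `none` is the idle index), with the intermediate states `ψ`
written out: `ψ t x` is the state before query number `t` on the oracle `x`.

The algorithm is *aware* if every amplitude at a basis state `(some i, v)`, at the time of each
query, is an even or an odd function of the bit `x i`: the workspace tells whether the sign of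
`x i` is absent from the amplitude (so that the query brings it in) or present in it (so that the
query removes it). In particular this holds (with even amplitudes only) if no bit is queried twice
along a computation path. There is no restriction on adaptivity, on the memory, or on the number
of times at which a bit is queried in different branches.
-/

set_option autoImplicit false

namespace Pool.Agent.Results.MP_58d537_lc.AwareQueries

open Matrix Pool.Agent.H.MP_58d537_lc Pool.Agent.H.MP_58d537_lc.H52 in
/-- Take a quantum algorithm with `T` queries such that, for each query `t` and each basis state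
`(some i, v)`, the amplitude `ψ t x (some i, v)` before the query is either an even or an odd
function of the bit `x i`. If the acceptance probability has variance `Var > 0`, then there is a
bit-fixing source fixing at most `320 T ^ 6 / Var ^ 2` bits which changes the acceptance
probability by at least `√(Var / 2)`. -/
theorem result (N T m : ℕ)
    (U : Fin (T + 1) → Matrix.unitaryGroup (Option (Fin N) × Fin m) ℂ)
    (s₀ : Option (Fin N) × Fin m)
    (Acc : Finset (Option (Fin N) × Fin m))
    (ψ : Fin (T + 1) → (Fin N → Bool) → (Option (Fin N) × Fin m) → ℂ)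
    (hψ₀ : ∀ x : Fin N → Bool, ψ 0 x = (U 0).1 *ᵥ Pi.single s₀ 1)
    (hψ : ∀ (t : Fin T) (x : Fin N → Bool),
      ψ t.succ x = (U t.succ).1 *ᵥ (fun s =>
        Option.elim s.1 (1 : ℂ) (fun i => if x i then -1 else 1) * ψ t.castSucc x s))
    (haware : ∀ (t : Fin T) (i : Fin N) (v : Fin m),
      (∀ x : Fin N → Bool, ψ t.castSucc (Function.update x i (!x i)) (some i, v) =
        ψ t.castSucc x (some i, v)) ∨
      (∀ x : Fin N → Bool, ψ t.castSucc (Function.update x i (!x i)) (some i, v) =
        -ψ t.castSucc x (some i, v)))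
    (p : (Fin N → Bool) → ℝ)
    (hp : ∀ x : Fin N → Bool, p x = ∑ s ∈ Acc, ‖ψ (Fin.last T) x s‖ ^ 2)
    (E Var : ℝ)
    (hE : E = (∑ x : Fin N → Bool, p x) / 2 ^ N)
    (hVar : Var = (∑ x : Fin N → Bool, (p x - E) ^ 2) / 2 ^ N)
    (hpos : 0 < Var) :
    ∃ (S : Finset (Fin N)) (a : Fin N → Bool),
      (S.card : ℝ) ≤ 320 * (T : ℝ) ^ 6 / Var ^ 2 ∧
      Real.sqrt (Var / 2) ≤
        |(∑ x ∈ Finset.univ.filter (fun x : Fin N → Bool => ∀ i ∈ S, x i = a i), p x)
            / ((Finset.univ.filter (fun x : Fin N → Bool => ∀ i ∈ S, x i = a i)).card : ℝ)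
          - E| := by
  classical
  have hEa : E = avg p := hE
  have hVa : Var = var p := by
    rw [hVar, hEa, var_eq]
    rfl
  have hp' : p = fun x => ∑ s ∈ Acc, ‖ψ (Fin.last T) x s‖ ^ 2 := funext hp
  have hp0 : ∀ x, 0 ≤ p x := by
    intro x
    rw [hp x]
    exact Finset.sum_nonneg fun _ _ => by positivity
  have hp1 : ∀ x, p x ≤ 1 := by
    intro x
    rw [hp x, ← norm_psi U s₀ ψ hψ₀ hψ x T le_rfl]
    exact Finset.sum_le_sum_of_subset_of_nonneg (Finset.subset_univ _)
      fun b _ _ => by positivity
  have hlight : ∀ (δ : ℝ), 0 ≤ δ → ∀ (S : Finset (Fin N)) (a : Fin N → Bool),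
      (∀ j, j ∉ S → avgR S a (wgt ψ j) ≤ δ) → var (fun x => p (ovw S a x)) ≤ 20 * T ^ 5 * δ := by
    intro δ hδ S a hl
    have := light_restr U s₀ ψ hψ₀ hψ haware Acc hδ S a hl
    rw [hp']
    exact this
  rcases Nat.eq_zero_or_pos T with h0 | h0
  · exfalso
    subst h0
    have h1 := hlight 0 le_rfl ∅ (fun _ => false) (by
      intro j _
      unfold avgR wgt
      simp [avg_const])
    have h2 : (fun x => p (ovw ∅ (fun _ => false) x)) = p := by
      funext x
      congr 1
    rw [h2, ← hVa, mul_zero] at h1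
    linarith
  have hT : (0 : ℝ) < T := by exact_mod_cast h0
  set δ : ℝ := Var / (80 * T ^ 5) with hδ
  have hδ0 : 0 < δ := by positivity
  set n : ℕ := ⌈320 * (T : ℝ) ^ 6 / Var ^ 2⌉₊ with hn
  have hX0 : 0 < 320 * (T : ℝ) ^ 6 / Var ^ 2 := by positivity
  have hn1 : 1 ≤ n := Nat.ceil_pos.mpr hX0
  have hnK : 4 * (T : ℝ) ≤ δ * n * var p := by
    rw [← hVa]
    have h1 : 320 * (T : ℝ) ^ 6 / Var ^ 2 ≤ n := Nat.le_ceil _
    have h2 : 4 * (T : ℝ) = δ * (320 * (T : ℝ) ^ 6 / Var ^ 2) * Var := by
      rw [hδ]
      field_simp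
      ring
    rw [h2]
    gcongr
  obtain ⟨S, a, hS, hdev⟩ := exists_fixing p hp0 hp1 (wgt ψ) (wgt_nonneg ψ) T
    (sum_wgt U s₀ ψ hψ₀ hψ) δ hδ0 (hVa ▸ hpos)
    (by
      intro S a hl
      refine (hlight δ hδ0.le S a hl).trans (le_of_eq ?_)
      rw [← hVa, hδ]
      field_simp
      ring)
    n hn1 hnK
  refine ⟨S, a, ?_, ?_⟩
  · have h1 : (n : ℝ) < 320 * (T : ℝ) ^ 6 / Var ^ 2 + 1 := Nat.ceil_lt_add_one hX0.le
    have h2 : (S.card : ℝ) ≤ (n : ℝ) - 1 := by
      have h3 : S.card + 1 ≤ n := by omega
      have h4 : ((S.card + 1 : ℕ) : ℝ) ≤ n := by exact_mod_cast h3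
      push_cast at h4
      linarith
    linarith
  · rw [← hVa] at hdev
    rw [← avgR_eq_filter, hEa]
    calc Real.sqrt (Var / 2) ≤ Real.sqrt ((avgR S a p - avg p) ^ 2) := Real.sqrt_le_sqrt hdev
      _ = _ := Real.sqrt_sq_eq_abs _

end Pool.Agent.Results.MP_58d537_lc.AwareQueries
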