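import Pool.Agent.H.MP_58d537_lc.Mem.Final

/-!
# Bit fixing for quantum algorithms with bounded coherence time and bounded quantum memory

The algorithms (`Alg N m D d T`) have unlimited adaptivity and unlimited classical memory. They
consist of `T` coherent segments of `D` queries; after each segment the state is measured by a
generalised measurement whose operators have rank at most `d`, so that only a `d`-dimensional
quantum memory survives between the segments.
-/

set_option autoImplicit false

open Finset
open scoped InnerProductSpace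

namespace Pool.Agent.Results.MP_58d537_lc.BoundedMemory

open Pool.Agent.H.MP_58d537_lc Pool.Agent.H.MP_58d537_lc.Mem in
/-- For every algorithm consisting of `T` coherent segments of `D` queries with a `d`-dimensional
quantum memory between the segments, whose acceptance probability has variance `Var > 0`, there is
a bit-fixing source fixing at most `331776 · 9^D D^6 T^9 d^4 / Var^4` bits (at most
`576 T^5 d^2 / Var^2` bits if `D = 1`) which changes the acceptance probability by at least
`Var / 2`. -/
theorem result (N m D d T : ℕ) (A : Alg N m D d T) (s₀ : Option (Fin N) × Fin m)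
    (p : (Fin N → Bool) → ℝ) (hp : ∀ x : Fin N → Bool, p x = A.accept x (Pi.single s₀ 1))
    (E Var : ℝ)
    (hE : E = (∑ x : Fin N → Bool, p x) / 2 ^ N)
    (hVar : Var = (∑ x : Fin N → Bool, (p x - E) ^ 2) / 2 ^ N)
    (hpos : 0 < Var) :
    ∃ (S : Finset (Fin N)) (a : Fin N → Bool),
      (S.card : ℝ) ≤ (if D = 1 then 576 * (T : ℝ) ^ 5 * (d : ℝ) ^ 2 / Var ^ 2
        else 331776 * 9 ^ D * (D : ℝ) ^ 6 * (T : ℝ) ^ 9 * (d : ℝ) ^ 4 / Var ^ 4) ∧
      Var / 2 ≤
        |(∑ x ∈ Finset.univ.filter (fun x : Fin N → Bool => ∀ i ∈ S, x i = a i), p x)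
            / ((Finset.univ.filter (fun x : Fin N → Bool => ∀ i ∈ S, x i = a i)).card : ℝ)
          - E| := by
  classical
  have hpf : (fun x => A.accept x (Pi.single s₀ 1)) = p := by
    funext x
    exact (hp x).symm
  have hEa : E = avg p := hE
  have hVa : Var = var (fun x => A.accept x (Pi.single s₀ 1)) := by
    rw [hpf, hVar, hEa, var_eq]
    rfl
  obtain ⟨S, a, h1, h2⟩ := bit_fixing A s₀ hVa hpos
  refine ⟨S, a, h1, ?_⟩
  rw [hpf, avgR_eq_filter, ← hEa] at h2
  exact h2

end Pool.Agent.Results.MP_58d537_lc.BoundedMemory
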