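import Pool.Agent.H.MP_58d537_lc.Matrices

/-!
# Bit fixing for quantum algorithms with few rounds of parallel queries

A quantum algorithm with `r` rounds of `k` parallel queries acts on the basis
`(i₁,…,i_k,w)`, `i_t ∈ Option (Fin N)` (`none` = no query), `w ∈ Fin m`; one round of queries to
the oracle `x` multiplies the basis state by `∏ t, (-1)^{x(i_t)}`.
-/

set_option autoImplicit false

open Finset
open scoped InnerProductSpace

namespace Pool.Agent.Results.MP_58d537_lc.BoundedRounds

open Pool.Agent.H.MP_58d537_lc in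
/-- For every quantum algorithm with `r` rounds of `k` parallel queries whose acceptance
probability has variance `Var > 0` there is a bit-fixing source fixing at most
`64 r (6r)^{4r} k^{2r+2} / Var³` bits which changes the acceptance probability by at least
`√(Var/2)`. -/
theorem result (r k N m : ℕ) (hr : 1 ≤ r) (hk : 1 ≤ k)
    (U : Fin (r + 1) → Matrix.unitaryGroup ((Fin k → Option (Fin N)) × Fin m) ℂ)
    (s₀ : (Fin k → Option (Fin N)) × Fin m)
    (Acc : Finset ((Fin k → Option (Fin N)) × Fin m))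
    (p : (Fin N → Bool) → ℝ)
    (hp : ∀ x : Fin N → Bool,
      p x = ∑ s ∈ Acc,
        ‖(((List.ofFn (fun j : Fin r =>
            (U j.succ).1 *
              Matrix.diagonal (fun q : (Fin k → Option (Fin N)) × Fin m =>
                ∏ t : Fin k, Option.elim (q.1 t) (1 : ℂ) (fun i => if x i then -1 else 1)))
              ).reverse.prod
            * (U 0).1) s s₀)‖ ^ 2)
    (E Var : ℝ)
    (hE : E = (∑ x : Fin N → Bool, p x) / 2 ^ N)
    (hVar : Var = (∑ x : Fin N → Bool, (p x - E) ^ 2) / 2 ^ N)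
    (hpos : 0 < Var) :
    ∃ (S : Finset (Fin N)) (a : Fin N → Bool),
      (S.card : ℝ) ≤ 64 * r * (6 * r) ^ (4 * r) * (k : ℝ) ^ (2 * r + 2) / Var ^ 3 ∧
      Real.sqrt (Var / 2) ≤
        |(∑ x ∈ Finset.univ.filter (fun x : Fin N → Bool => ∀ i ∈ S, x i = a i), p x)
            / ((Finset.univ.filter (fun x : Fin N → Bool => ∀ i ∈ S, x i = a i)).card : ℝ)
          - E| := by
  classical
  set A := mkSys r U s₀ with hA
  set Q : EuclideanSpace ℂ (Idx N k m) →ₗ[ℂ] EuclideanSpace ℂ (Idx N k m) :=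
    dE (fun s => if s ∈ Acc then 1 else 0) with hQ
  have hf : (fun x => ‖Q (A.st r x)‖ ^ 2) = p := by
    funext x
    rw [hp x, hQ, norm_sq_dE]
    have h1 : ∀ s, (A.st r x) s = ((List.ofFn (fun j : Fin r =>
            (U j.succ).1 *
              Matrix.diagonal (fun q : (Fin k → Option (Fin N)) × Fin m =>
                ∏ t : Fin k, Option.elim (q.1 t) (1 : ℂ) (fun i => if x i then -1 else 1)))
              ).reverse.prod
            * (U 0).1) s s₀ := fun s => mkSys_st r U s₀ x r le_rfl s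
    rw [← Finset.sum_filter_add_sum_filter_not univ (fun s => s ∈ Acc)]
    have h2 : ∑ s ∈ univ.filter (fun s => ¬ s ∈ Acc),
        ‖(if s ∈ Acc then (1 : ℂ) else 0)‖ ^ 2 * ‖A.st r x s‖ ^ 2 = 0 := by
      apply Finset.sum_eq_zero
      intro s hs
      rw [if_neg (Finset.mem_filter.mp hs).2]
      simp
    rw [h2, add_zero]
    have h3 : univ.filter (fun s => s ∈ Acc) = Acc := by ext s; simp
    rw [h3]
    apply Finset.sum_congr rfl
    intro s hs
    rw [if_pos hs, h1 s]
    simp
  have hEa : E = avg p := hE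
  have hVa : Var = var p := by
    rw [hVar, hEa, var_eq]
    rfl
  have hQn : ∀ v, ‖Q v‖ ≤ ‖v‖ := by
    intro v
    apply le_of_sq_le_sq _ (norm_nonneg _)
    rw [hQ, norm_sq_dE, EuclideanSpace.norm_sq_eq]
    apply Finset.sum_le_sum
    intro s _
    have : ‖(if s ∈ Acc then (1 : ℂ) else 0)‖ ^ 2 ≤ 1 := by
      split_ifs <;> simp
    calc _ ≤ 1 * ‖v s‖ ^ 2 := mul_le_mul_of_nonneg_right this (by positivity)
      _ = _ := one_mul _
  have hk' : (1 : ℝ) ≤ A.k := by
    have : A.k = (k : ℝ) := rfl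
    rw [this]
    exact_mod_cast hk
  obtain ⟨S, a, hS, hdev⟩ := A.exists_bitfix hk' r hr Q
    (fun u v => dE_symm _ (fun q => by split_ifs <;> simp) u v)
    (fun v => dE_idem _ (fun q => by split_ifs <;> simp) v) hQn
    (by rw [hf, ← hVa]; exact hpos)
  rw [hf, ← hVa] at hS
  rw [hf, ← hVa] at hdev
  refine ⟨S, a, hS, ?_⟩
  rw [← avgR_eq_filter, hEa]
  calc Real.sqrt (Var / 2) ≤ Real.sqrt ((avgR S a p - avg p) ^ 2) := Real.sqrt_le_sqrt hdev
    _ = _ := Real.sqrt_sq_eq_abs _

end Pool.Agent.Results.MP_58d537_lc.BoundedRounds
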