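import Pool.Agent.H.MP_58d537_lc.A20H.Main
import Pool.Agent.H.MP_58d537_lc.Matrices

/-!
# Bit fixing for quantum algorithms that query every input bit heavily in few rounds only

A quantum algorithm with `R` rounds of `k` parallel queries acts on the basis
`(i₁,…,i_k,v)`, `i_l ∈ Option (Fin N)` (`none` = no query), `v ∈ Fin m`; one round of queries to
the oracle `x` multiplies the basis state by `∏ l, (-1)^{x(i_l)}`. The vector `ψ t x` is the state
before round `t` on the oracle `x`, and `w t i x` is the query weight of the coordinate `i` in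
round `t`. The number `R` of rounds is not bounded.
-/

set_option autoImplicit false

open Finset
open scoped InnerProductSpace

namespace Pool.Agent.Results.MP_58d537_lc.FewHeavyRounds

open Matrix Pool.Agent.H.MP_58d537_lc in
/-- Take a quantum algorithm with `R` rounds of `k` parallel queries, whose acceptance
probability has variance `Var > 0`. Suppose that for every coordinate `i` there are at most `q`
rounds in which the query weight of `i` exceeds
`Var² / (8 (6q)^{4q+2} (3qR²k)^{2q+2})` on some oracle. Then there is a bit-fixing source fixing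
at most `32 R k (6q)^{4q} (3qR²k)^{2q+1} / Var³` bits which changes the acceptance probability by
at least `√(Var/2)`. -/
theorem result (R q k N m : ℕ) (hR : 1 ≤ R) (hq : 1 ≤ q) (hk : 1 ≤ k)
    (U : Fin (R + 1) → Matrix.unitaryGroup ((Fin k → Option (Fin N)) × Fin m) ℂ)
    (s₀ : (Fin k → Option (Fin N)) × Fin m)
    (Acc : Finset ((Fin k → Option (Fin N)) × Fin m))
    (ψ : Fin (R + 1) → (Fin N → Bool) → ((Fin k → Option (Fin N)) × Fin m) → ℂ)
    (hψ₀ : ∀ x : Fin N → Bool, ψ 0 x = (U 0).1 *ᵥ Pi.single s₀ 1)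
    (hψ : ∀ (t : Fin R) (x : Fin N → Bool),
      ψ t.succ x = (U t.succ).1 *ᵥ (fun b =>
        (∏ l : Fin k, Option.elim (b.1 l) (1 : ℂ) (fun i => if x i then -1 else 1)) *
          ψ t.castSucc x b))
    (p : (Fin N → Bool) → ℝ)
    (hp : ∀ x : Fin N → Bool, p x = ∑ s ∈ Acc, ‖ψ (Fin.last R) x s‖ ^ 2)
    (E Var : ℝ)
    (hE : E = (∑ x : Fin N → Bool, p x) / 2 ^ N)
    (hVar : Var = (∑ x : Fin N → Bool, (p x - E) ^ 2) / 2 ^ N)
    (hpos : 0 < Var)
    (w : Fin R → Fin N → (Fin N → Bool) → ℝ)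
    (hw : ∀ (t : Fin R) (i : Fin N) (x : Fin N → Bool),
      w t i x = ∑ b ∈ Finset.univ.filter
        (fun b : (Fin k → Option (Fin N)) × Fin m => ∃ l : Fin k, b.1 l = some i),
          ‖ψ t.castSucc x b‖ ^ 2)
    (hheavy : ∀ i : Fin N, (Finset.univ.filter (fun t : Fin R => ∃ x : Fin N → Bool,
      Var ^ 2 / (8 * (6 * q) ^ (4 * q + 2) * (3 * q * R ^ 2 * k) ^ (2 * q + 2)) < w t i x)).card
        ≤ q) :
    ∃ (S : Finset (Fin N)) (a : Fin N → Bool),
      (S.card : ℝ) ≤ 32 * R * k * (6 * q) ^ (4 * q) * (3 * q * R ^ 2 * k) ^ (2 * q + 1) /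
        Var ^ 3 ∧
      Real.sqrt (Var / 2) ≤
        |(∑ x ∈ Finset.univ.filter (fun x : Fin N → Bool => ∀ i ∈ S, x i = a i), p x)
            / ((Finset.univ.filter (fun x : Fin N → Bool => ∀ i ∈ S, x i = a i)).card : ℝ)
          - E| := by
  classical
  set A := mkSys R U s₀ with hA
  set Q : EuclideanSpace ℂ (Idx N k m) →ₗ[ℂ] EuclideanSpace ℂ (Idx N k m) :=
    dE (fun s => if s ∈ Acc then 1 else 0) with hQ
  -- the states
  have hst : ∀ (n : ℕ) (hn : n ≤ R) (x : Fin N → Bool),
      A.st n x = WithLp.toLp 2 (ψ ⟨n, by omega⟩ x) := by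
    intro n
    induction n with
    | zero =>
      intro _ x
      have e : (⟨0, by omega⟩ : Fin (R + 1)) = 0 := rfl
      rw [e, hψ₀ x]
      simp only [QSys.st, hA, mkSys, uE_apply]
      rfl
    | succ n ih =>
      intro hn x
      have ih' := ih (by omega) x
      have e : (⟨n + 1, by omega⟩ : Fin (R + 1)) = (⟨n, by omega⟩ : Fin R).succ := rfl
      have e2 : A.st (n + 1) x = A.U n (A.O x (A.st n x)) := rfl
      have hlt : n < R := hn
      have e3 : A.U n = uE (U (Fin.succ ⟨n, hlt⟩)) := by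
        simp only [hA, mkSys, hlt, dif_pos]
      rw [e2, e3, ih', e, hψ ⟨n, hlt⟩ x, uE_apply]
      congr 2
      funext b
      exact orcU_apply x _ b
  have hf : (fun x => ‖Q (A.st R x)‖ ^ 2) = p := by
    funext x
    rw [hp x, hQ, norm_sq_dE, hst R le_rfl x]
    rw [← Finset.sum_filter_add_sum_filter_not univ (fun s => s ∈ Acc)]
    have h2 : ∑ s ∈ univ.filter (fun s => ¬ s ∈ Acc),
        ‖(if s ∈ Acc then (1 : ℂ) else 0)‖ ^ 2 *
          ‖(WithLp.toLp 2 (ψ ⟨R, by omega⟩ x) : EuclideanSpace ℂ (Idx N k m)) s‖ ^ 2 = 0 := by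
      apply Finset.sum_eq_zero
      intro s hs
      rw [if_neg (Finset.mem_filter.mp hs).2]
      simp
    rw [h2, add_zero]
    have h3 : univ.filter (fun s => s ∈ Acc) = Acc := by ext s; simp
    rw [h3]
    apply Finset.sum_congr rfl
    intro s hs
    rw [if_pos hs]
    simp only [norm_one, one_pow, one_mul]
    rfl
  have hEa : E = avg p := hE
  have hVa : Var = var p := by
    rw [hVar, hEa, var_eq]
    rfl
  have hQn : ∀ v, ‖Q v‖ ≤ ‖v‖ := by
    intro v
    apply le_of_sq_le_sq _ (norm_nonneg _)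
    rw [hQ, norm_sq_dE, EuclideanSpace.norm_sq_eq]
    apply Finset.sum_le_sum
    intro s _
    have : ‖(if s ∈ Acc then (1 : ℂ) else 0)‖ ^ 2 ≤ 1 := by
      split_ifs <;> simp
    calc _ ≤ 1 * ‖v s‖ ^ 2 := mul_le_mul_of_nonneg_right this (by positivity)
      _ = _ := one_mul _
  have hk' : (1 : ℝ) ≤ A.k := by
    have : A.k = (k : ℝ) := rfl
    rw [this]
    exact_mod_cast hk
  -- heavy coordinates of a round
  set δ : ℝ := Var ^ 2 / (8 * (6 * q) ^ (4 * q + 2) * (3 * q * R ^ 2 * k) ^ (2 * q + 2)) with hδ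
  set acc : ℕ → Finset (Fin N) := fun t =>
    if h : t < R then univ.filter (fun i => ∃ x, δ < w ⟨t, h⟩ i x) else ∅ with hacc
  have hacc' : ∀ (t : Fin R) (i : Fin N), i ∈ acc t ↔ ∃ x, δ < w t i x := by
    intro t i
    simp [hacc, t.2]
  -- the weight of a coordinate is at least the norm of the odd part
  have hle : ∀ (t : Fin R) (i : Fin N) (x : Fin N → Bool),
      ‖A.P i (A.st t x)‖ ^ 2 ≤ w t i x := by
    intro t i x
    have e1 : A.P i = dE (par i) := rfl
    rw [e1, norm_sq_dE, hw t i x, hst t t.2.le x]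
    rw [Finset.sum_filter]
    apply Finset.sum_le_sum
    intro b _
    change ‖par i b‖ ^ 2 * ‖ψ t.castSucc x b‖ ^ 2 ≤ _
    by_cases hb : ∃ l : Fin k, b.1 l = some i
    · rw [if_pos hb]
      have : ‖(par i b : ℂ)‖ ^ 2 ≤ 1 := by
        unfold par
        split_ifs <;> simp
      calc _ ≤ 1 * ‖ψ t.castSucc x b‖ ^ 2 := mul_le_mul_of_nonneg_right this (by positivity)
        _ = _ := one_mul _
    · rw [if_neg hb]
      have h0 : (univ.filter (fun t : Fin k => b.1 t = some i)) = ∅ := by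
        rw [Finset.filter_eq_empty_iff]
        intro l _ hl
        exact hb ⟨l, hl⟩
      have : (par i b : ℂ) = 0 := by
        unfold par
        rw [h0]
        simp
      rw [this]
      simp
  obtain ⟨S, a, hS, hdev⟩ := A.exists_bitfixH (acc := acc) hk' R q hR hq
    (by
      intro i
      refine le_trans (le_of_eq ?_) (hheavy i)
      unfold hcnt
      symm
      apply Finset.card_bij (fun (t : Fin R) _ => (t : ℕ))
      · intro t ht
        rw [Finset.mem_filter] at ht ⊢
        exact ⟨Finset.mem_range.mpr t.2, (hacc' t i).mpr ht.2⟩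
      · intro s _ t _ h
        exact Fin.ext h
      · intro s hs
        rw [Finset.mem_filter, Finset.mem_range] at hs
        refine ⟨⟨s, hs.1⟩, ?_, rfl⟩
        rw [Finset.mem_filter]
        exact ⟨Finset.mem_univ _, (hacc' ⟨s, hs.1⟩ i).mp hs.2⟩) Q
    (fun u v => dE_symm _ (fun q => by split_ifs <;> simp) u v)
    (fun v => dE_idem _ (fun q => by split_ifs <;> simp) v) hQn
    (by rw [hf, ← hVa]; exact hpos)
    (by
      intro s hs i hi x
      rw [hf, ← hVa]
      have h1 : ¬ ∃ x, δ < w ⟨s, hs⟩ i x := fun h => hi ((hacc' ⟨s, hs⟩ i).mpr h)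
      push Not at h1
      exact (hle ⟨s, hs⟩ i x).trans (h1 x))
  rw [hf, ← hVa] at hS
  rw [hf, ← hVa] at hdev
  refine ⟨S, a, hS, ?_⟩
  rw [← avgR_eq_filter, hEa]
  calc Real.sqrt (Var / 2) ≤ Real.sqrt ((avgR S a p - avg p) ^ 2) := Real.sqrt_le_sqrt hdev
    _ = _ := Real.sqrt_sq_eq_abs _

end Pool.Agent.Results.MP_58d537_lc.FewHeavyRounds
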