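import Mathlib
import Pool.Agent.H.MP_58d537_lc.A20.Seq

/-!
Bit-fixing form of the Aaronson–Ambainis problem for quantum algorithms, in terms of the peak
query weights. The model is the one of the frozen statement of the problem (phase oracle on
`Option (Fin N) × Fin m`, where `none` is the idle index), with the intermediate states `ψ`
written out: `ψ t x` is the state before query number `t` on the oracle `x`.
-/

set_option autoImplicit false

namespace Pool.Agent.Results.MP_58d537_lc.PeakQueryWeights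

open Matrix Pool.Agent.H.MP_58d537_lc.A20

/-- Let `c i` bound the total query weight of coordinate `i` over all `T` queries, on every
oracle. Then some `S` with `|S| ≤ 16 * T * (∑ i, c i) / Var` coordinates can be fixed so that
the acceptance probability moves by at least `√(Var / 2)`. -/
theorem result (N T m : ℕ)
    (U : Fin (T + 1) → Matrix.unitaryGroup (Option (Fin N) × Fin m) ℂ)
    (s₀ : Option (Fin N) × Fin m)
    (Acc : Finset (Option (Fin N) × Fin m))
    (ψ : Fin (T + 1) → (Fin N → Bool) → (Option (Fin N) × Fin m) → ℂ)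
    (hψ₀ : ∀ x : Fin N → Bool, ψ 0 x = (U 0).1 *ᵥ Pi.single s₀ 1)
    (hψ : ∀ (t : Fin T) (x : Fin N → Bool),
      ψ t.succ x = (U t.succ).1 *ᵥ (fun s =>
        Option.elim s.1 (1 : ℂ) (fun i => if x i then -1 else 1) * ψ t.castSucc x s))
    (p : (Fin N → Bool) → ℝ)
    (hp : ∀ x : Fin N → Bool, p x = ∑ s ∈ Acc, ‖ψ (Fin.last T) x s‖ ^ 2)
    (c : Fin N → ℝ)
    (hc : ∀ (i : Fin N) (x : Fin N → Bool),
      ∑ t : Fin T, ∑ w : Fin m, ‖ψ t.castSucc x (some i, w)‖ ^ 2 ≤ c i)
    (E Var : ℝ)
    (hE : E = (∑ x : Fin N → Bool, p x) / 2 ^ N)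
    (hVar : Var = (∑ x : Fin N → Bool, (p x - E) ^ 2) / 2 ^ N)
    (hpos : 0 < Var) :
    ∃ (S : Finset (Fin N)) (a : Fin N → Bool),
      (S.card : ℝ) ≤ 16 * T * (∑ i, c i) / Var ∧
      Real.sqrt (Var / 2) ≤
        |(∑ x ∈ Finset.univ.filter (fun x : Fin N → Bool => ∀ i ∈ S, x i = a i), p x)
            / ((Finset.univ.filter (fun x : Fin N → Bool => ∀ i ∈ S, x i = a i)).card : ℝ)
          - E| := by
  classical
  set q : Option (Fin N) × Fin m → Option (Fin N) := fun s => s.1 with hq
  set A := seqAlg q U s₀ with hA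
  set Q := op (Matrix.diagonal (fun b => if b ∈ Acc then (1 : ℂ) else 0)) with hQdef
  have hst : ∀ (n : ℕ) (hn : n ≤ T) (x : Fin N → Bool),
      A.st n x = WithLp.toLp 2 (ψ ⟨n, by omega⟩ x) := by
    intro n hn x
    exact seqAlg_st q U s₀ x (fun t => ψ t x) (hψ₀ x) (fun t => hψ t x) n hn
  have hpQ : ∀ x, p x = ‖Q (A.st T x)‖ ^ 2 := by
    intro x
    rw [hp x, hst T le_rfl x, EuclideanSpace.norm_sq_eq]
    rw [← Finset.sum_filter_add_sum_filter_not Finset.univ (fun b => b ∈ Acc)]
    have h2 : ∑ b ∈ Finset.univ.filter (fun b => b ∉ Acc),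
        ‖(Q (WithLp.toLp 2 (ψ ⟨T, by omega⟩ x))) b‖ ^ 2 = 0 := by
      refine Finset.sum_eq_zero (fun b hb => ?_)
      rw [hQdef, op_diag_apply]
      simp [(Finset.mem_filter.mp hb).2]
    rw [h2, add_zero]
    have h3 : Finset.univ.filter (fun b => b ∈ Acc) = Acc := by ext; simp
    rw [h3]
    refine Finset.sum_congr rfl (fun b hb => ?_)
    rw [hQdef, op_diag_apply]
    simp only [hb, if_true, one_mul]
    rfl
  have hpfun : p = fun x => ‖Q (A.st T x)‖ ^ 2 := funext hpQ
  have hQ : ∀ u v, inner ℂ (Q u) v = inner ℂ (Q u) (Q v) :=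
    op_proj _ (fun b => by by_cases h : b ∈ Acc <;> simp [h])
  have hk0 : (0 : ℝ) ≤ A.k := by
    change (0 : ℝ) ≤ 1
    norm_num
  have hcw : ∀ i x, ∑ s ∈ Finset.range T, A.w s i x ≤ c i := by
    intro i x
    refine le_trans (le_of_eq ?_) (hc i x)
    rw [Finset.sum_range]
    refine Finset.sum_congr rfl (fun t _ => ?_)
    unfold Alg.w
    rw [hst t.1 (by omega) x]
    change ‖op (Matrix.diagonal (fun b => if q b = some i then (1 : ℂ) else 0)) _‖ ^ 2 = _
    rw [EuclideanSpace.norm_sq_eq, Fintype.sum_prod_type]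
    rw [Finset.sum_eq_single (some i)]
    · refine Finset.sum_congr rfl (fun w _ => ?_)
      rw [op_diag_apply]
      simp only [hq, if_true, one_mul]
      rfl
    · intro b _ hb
      refine Finset.sum_eq_zero (fun w _ => ?_)
      rw [op_diag_apply]
      simp [hq, hb]
    · intro h
      exact absurd (Finset.mem_univ _) h
  have hE' : E = avg (fun x => ‖Q (A.st T x)‖ ^ 2) := by
    rw [hE, ← hpfun]
    rfl
  have hVar' : Var = avg (fun x => (‖Q (A.st T x)‖ ^ 2 - E) ^ 2) := by
    rw [hVar, hpfun]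
    rfl
  have hAk : A.k = 1 := rfl
  have hc0 : ∀ i, 0 ≤ c i := fun i =>
    (Finset.sum_nonneg (fun s _ => A.w_nonneg s i (fun _ => false))).trans (hcw i _)
  have hT : 0 < (T : ℝ) * A.k := by
    rw [hAk, mul_one]
    rcases Nat.eq_zero_or_pos T with h | h
    · exfalso
      subst h
      have hconst : ∀ x, p x = p (fun _ => false) := by
        intro x
        rw [hp x, hp (fun _ => false)]
        have e : (Fin.last 0 : Fin (0 + 1)) = 0 := rfl
        rw [e, hψ₀ x, hψ₀ (fun _ => false)]
      have h1 : E = p (fun _ => false) := by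
        rw [hE]
        simp only [hconst]
        rw [Finset.sum_const, Finset.card_univ, Fintype.card_pi]
        simp
      have h2 : Var = 0 := by
        rw [hVar]
        simp only [hconst, ← h1]
        simp
      linarith
    · exact_mod_cast h
  obtain ⟨S, a, h1, h2⟩ := peak_main A hk0 T c hcw hT Q hQ E Var hE' hVar' hpos
  refine ⟨S, a, ?_, ?_⟩
  · rw [hAk, mul_one] at h1
    exact h1
  · have h3 : avg (fun x => ‖Q (A.st T (ov S a x))‖ ^ 2)
        = (∑ x ∈ Finset.univ.filter (fun x : Fin N → Bool => ∀ i ∈ S, x i = a i), p x)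
            / ((Finset.univ.filter (fun x : Fin N → Bool => ∀ i ∈ S, x i = a i)).card : ℝ) := by
      rw [← avg_ov S a p, hpfun]
    rw [← h3]
    exact Real.sqrt_le_iff.mpr ⟨abs_nonneg _, by rw [sq_abs]; exact h2⟩

end Pool.Agent.Results.MP_58d537_lc.PeakQueryWeights
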