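import Pool.Agent.H.MP_58d537_lc.A20P.Main
import Pool.Agent.H.MP_58d537_lc.A20S.Mat

/-!
# Quasi-polynomial bit fixing for all quantum query algorithms

A quantum algorithm with `R` rounds of `k` parallel queries acts on the basis
`(i₁,…,i_k,v)`, `i_l ∈ Option (Fin N)` (`none` = no query), `v ∈ Fin m`; one round of queries to
the oracle `x` multiplies the basis state by `∏ l, (-1)^{x(i_l)}`. The vector `ψ t x` is the state
after `t` rounds on the oracle `x`. The case `k = 1` is the standard model with `R` queries.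
-/

set_option autoImplicit false

open Finset
open scoped InnerProductSpace

namespace Pool.Agent.Results.MP_58d537_lc.QuasiPolynomial

open Matrix Pool.Agent.H.MP_58d537_lc Pool.Agent.H.MP_58d537_lc.SubE in
/-- Take a quantum algorithm with `R` rounds of `k` parallel queries, `T = R k` queries in total,
whose acceptance probability has variance `Var > 0`. There is a bit-fixing source fixing at most
`exp(60 (1 + log T)²) / Var³` bits which changes the acceptance probability by at least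
`√(Var/2)`. -/
theorem result (R k N m : ℕ) (hR : 1 ≤ R) (hk : 1 ≤ k)
    (U : Fin (R + 1) → Matrix.unitaryGroup ((Fin k → Option (Fin N)) × Fin m) ℂ)
    (s₀ : (Fin k → Option (Fin N)) × Fin m)
    (Acc : Finset ((Fin k → Option (Fin N)) × Fin m))
    (ψ : Fin (R + 1) → (Fin N → Bool) → ((Fin k → Option (Fin N)) × Fin m) → ℂ)
    (hψ₀ : ∀ x : Fin N → Bool, ψ 0 x = (U 0).1 *ᵥ Pi.single s₀ 1)
    (hψ : ∀ (t : Fin R) (x : Fin N → Bool),
      ψ t.succ x = (U t.succ).1 *ᵥ (fun b =>
        (∏ l : Fin k, Option.elim (b.1 l) (1 : ℂ) (fun i => if x i then -1 else 1)) *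
          ψ t.castSucc x b))
    (p : (Fin N → Bool) → ℝ)
    (hp : ∀ x : Fin N → Bool, p x = ∑ s ∈ Acc, ‖ψ (Fin.last R) x s‖ ^ 2)
    (E Var : ℝ)
    (hE : E = (∑ x : Fin N → Bool, p x) / 2 ^ N)
    (hVar : Var = (∑ x : Fin N → Bool, (p x - E) ^ 2) / 2 ^ N)
    (hpos : 0 < Var) :
    ∃ (S : Finset (Fin N)) (a : Fin N → Bool),
      (S.card : ℝ) ≤ Real.exp (60 * (1 + Real.log (R * k)) ^ 2) / Var ^ 3 ∧
      Real.sqrt (Var / 2) ≤
        |(∑ x ∈ Finset.univ.filter (fun x : Fin N → Bool => ∀ i ∈ S, x i = a i), p x)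
            / ((Finset.univ.filter (fun x : Fin N → Bool => ∀ i ∈ S, x i = a i)).card : ℝ)
          - E| := by
  classical
  set A := mkM R U s₀ with hA
  set Q : EuclideanSpace ℂ (Idx N k m) →ₗ[ℂ] EuclideanSpace ℂ (Idx N k m) :=
    dE (fun s => if s ∈ Acc then 1 else 0) with hQ
  -- the states
  have hst : ∀ (n : ℕ) (hn : n ≤ R) (x : Fin N → Bool),
      A.st (k * n) x = WithLp.toLp 2 (ψ ⟨n, by omega⟩ x) := by
    intro n
    induction n with
    | zero =>
      intro _ x
      have e : (⟨0, by omega⟩ : Fin (R + 1)) = 0 := rfl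
      rw [e, hψ₀ x]
      simp only [mul_zero, MSys.st, hA, mkM, uE_apply]
      rfl
    | succ n ih =>
      intro hn x
      have ih' := ih (by omega) x
      have e : (⟨n + 1, by omega⟩ : Fin (R + 1)) = (⟨n, by omega⟩ : Fin R).succ := rfl
      have hlt : n < R := hn
      rw [hA, mkM_round R U s₀ hk x n hlt, ← hA, ih', e, hψ ⟨n, hlt⟩ x, uE_apply]
      rfl
  have hf : (fun x => ‖Q (A.st (R * k) x)‖ ^ 2) = p := by
    funext x
    rw [hp x, hQ, norm_sq_dE, mul_comm R k, hst R le_rfl x]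
    rw [← Finset.sum_filter_add_sum_filter_not univ (fun s => s ∈ Acc)]
    have h2 : ∑ s ∈ univ.filter (fun s => ¬ s ∈ Acc),
        ‖(if s ∈ Acc then (1 : ℂ) else 0)‖ ^ 2 *
          ‖(WithLp.toLp 2 (ψ ⟨R, by omega⟩ x) : EuclideanSpace ℂ (Idx N k m)) s‖ ^ 2 = 0 := by
      apply Finset.sum_eq_zero
      intro s hs
      rw [if_neg (Finset.mem_filter.mp hs).2]
      simp
    rw [h2, add_zero]
    have h3 : univ.filter (fun s => s ∈ Acc) = Acc := by ext s; simp
    rw [h3]
    apply Finset.sum_congr rfl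
    intro s hs
    rw [if_pos hs]
    simp only [norm_one, one_pow, one_mul]
    rfl
  have hEa : E = avg p := hE
  have hVa : Var = var p := by
    rw [hVar, hEa, var_eq]
    rfl
  have hQn : ∀ v, ‖Q v‖ ≤ ‖v‖ := by
    intro v
    apply le_of_sq_le_sq _ (norm_nonneg _)
    rw [hQ, norm_sq_dE, EuclideanSpace.norm_sq_eq]
    apply Finset.sum_le_sum
    intro s _
    have : ‖(if s ∈ Acc then (1 : ℂ) else 0)‖ ^ 2 ≤ 1 := by
      split_ifs <;> simp
    calc _ ≤ 1 * ‖v s‖ ^ 2 := mul_le_mul_of_nonneg_right this (by positivity)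
      _ = _ := one_mul _
  have hRk : 1 ≤ R * k := Nat.mul_pos hR hk
  obtain ⟨S, a, hS, hdev⟩ := A.exists_bitfix_log (R * k) hRk Q
    (fun u v => dE_symm _ (fun q => by split_ifs <;> simp) u v)
    (fun v => dE_idem _ (fun q => by split_ifs <;> simp) v) hQn
    (by rw [hf, ← hVa]; exact hpos)
  rw [hf, ← hVa] at hS
  rw [hf, ← hVa] at hdev
  refine ⟨S, a, ?_, ?_⟩
  · rwa [Nat.cast_mul] at hS
  · rw [← avgR_eq_filter, hEa]
    calc Real.sqrt (Var / 2) ≤ Real.sqrt ((avgR S a p - avg p) ^ 2) := Real.sqrt_le_sqrt hdev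
      _ = _ := Real.sqrt_sq_eq_abs _

end Pool.Agent.Results.MP_58d537_lc.QuasiPolynomial
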